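import Pool.Agent.Run7.h481.RG.Iface

/-!
Project RG (helper481), piece COMP: the compensator identity for all times.
-/

set_option autoImplicit false

namespace Run7.h993.RG

open MeasureTheory ProbabilityTheory Set Filter
open scoped NNReal ENNReal Topology
open H481.RG

theorem meas_lim {Ω : Type} (m : MeasurableSpace Ω) (f : ℕ → Ω → ℝ) (g : Ω → ℝ)
    (hf : ∀ n, Measurable[m] (f n)) (h : ∀ ω, Tendsto (fun n => f n ω) atTop (𝓝 (g ω))) :
    Measurable[m] g :=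
  measurable_of_tendsto_metrizable hf (tendsto_pi_nhds.mpr h)

theorem tendsto_floor (q : ℝ) (hq : 0 ≤ q) :
    Tendsto (fun M : ℕ => (⌊q * 3 ^ M⌋₊ : ℝ) / 3 ^ M) atTop (𝓝 q) :=
  (tendsto_nat_floor_mul_div_atTop hq).comp
    (tendsto_pow_atTop_atTop_of_one_lt (by norm_num : (1 : ℝ) < 3))

section

variable {Ω : Type} {F : U → ℝ → ℝ} {W : ℝ≥0 → Ω → ℝ} {V : Ω → U}

theorem grid_mono (m : ℕ) {k k' : ℕ} (h : k ≤ k') : grid F W V m k ≤ grid F W V m k' :=
  iSup₂_le fun j hj => le_iSup₂_of_le j (hj.trans h) le_rfl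

theorem grid_X (m : ℕ) {j k : ℕ} (h : j ≤ k) :
    Measurable[grid F W V m k] (X F W V ((j : ℝ≥0) / 3 ^ m)) := by
  rw [measurable_iff_comap_le]
  exact le_iSup₂_of_le (f := fun (j : ℕ) (_ : j ≤ k) =>
    MeasurableSpace.comap (X F W V ((j : ℝ≥0) / 3 ^ m)) inferInstance) j h le_rfl

/-- the σ-algebra of the finer grids -/
@[instance_reducible] noncomputable def GG (F : U → ℝ → ℝ) (W : ℝ≥0 → Ω → ℝ) (V : Ω → U) (m j : ℕ) :
    MeasurableSpace Ω :=
  ⨆ M : ℕ, ⨆ _ : m ≤ M, grid F W V M (j * 3 ^ (M - m))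

theorem FX_le (hX : ∀ ω, Continuous fun q : ℝ≥0 => X F W V q ω) (m j : ℕ) (r : ℝ≥0)
    (h : (r : ℝ) ≤ (j : ℝ) / 3 ^ m) : FX F W V r ≤ GG F W V m j := by
  refine iSup₂_le fun q hq => ?_
  rw [← measurable_iff_comap_le]
  have hq' : (q : ℝ) ≤ (j : ℝ) / 3 ^ m := le_trans (by exact_mod_cast hq) h
  refine meas_lim _ (fun M => X F W V ((⌊(q : ℝ) * 3 ^ (M + m)⌋₊ : ℝ≥0) / 3 ^ (M + m))) _
    (fun M => ?_) (fun ω => ?_)
  · have h1 : ⌊(q : ℝ) * 3 ^ (M + m)⌋₊ ≤ j * 3 ^ (M + m - m) := by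
      apply Nat.floor_le_of_le
      have h2 : (q : ℝ) * 3 ^ (M + m) ≤ (j : ℝ) / 3 ^ m * 3 ^ (M + m) :=
        mul_le_mul_of_nonneg_right hq' (by positivity)
      refine h2.trans (le_of_eq ?_)
      rw [Nat.add_sub_cancel]
      push_cast
      rw [pow_add]
      field_simp
    have h3 := grid_X (F := F) (W := W) (V := V) (M + m) h1
    exact h3.mono (le_iSup₂_of_le (f := fun (M : ℕ) (_ : m ≤ M) =>
      grid F W V M (j * 3 ^ (M - m))) (M + m) (Nat.le_add_left m M) le_rfl) le_rfl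
  · have h4 : Tendsto (fun M : ℕ => ((⌊(q : ℝ) * 3 ^ (M + m)⌋₊ : ℝ≥0) / 3 ^ (M + m) : ℝ≥0))
        atTop (𝓝 q) := by
      rw [← NNReal.tendsto_coe]
      have h5 := (tendsto_floor q q.2).comp (tendsto_add_atTop_nat m)
      refine h5.congr fun M => ?_
      simp
    exact ((hX ω).tendsto q).comp h4

theorem block (m j j' M : ℕ) (hM : m ≤ M) (hj' : (j' : ℝ) / 3 ^ m ≤ 1) (B : Set Ω)
    (hB : MeasurableSet[grid F W V M (j * 3 ^ (M - m))] B) :
    MeasurableSet[Pred F W V] (B ×ˢ Ioc ((j : ℝ) / 3 ^ m) ((j' : ℝ) / 3 ^ m)) := by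
  have hmono : Monotone (fun k : ℕ => (k : ℝ) / 3 ^ M) := fun a b hab => by
    have : (a : ℝ) ≤ b := by exact_mod_cast hab
    dsimp only
    gcongr
  have hcast : ∀ i : ℕ, ((i * 3 ^ (M - m) : ℕ) : ℝ) / 3 ^ M = (i : ℝ) / 3 ^ m := by
    intro i
    obtain ⟨d, rfl⟩ := Nat.exists_eq_add_of_le hM
    rw [Nat.add_sub_cancel_left]
    push_cast
    rw [pow_add]
    field_simp
  have h1 := hmono.biUnion_Ico_Ioc_map_succ (j * 3 ^ (M - m)) (j' * 3 ^ (M - m))
  rw [hcast, hcast] at h1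
  rw [← h1, Set.prod_iUnion₂]
  have hj3 : j' ≤ 3 ^ m := by
    rw [div_le_one (by positivity)] at hj'
    exact_mod_cast hj'
  refine MeasurableSet.biUnion (Set.to_countable _) fun k hk => ?_
  refine MeasurableSpace.measurableSet_generateFrom ⟨M, k, B, ?_, grid_mono M hk.1 B hB, ?_⟩
  · refine lt_of_lt_of_le hk.2 ?_
    calc j' * 3 ^ (M - m) ≤ 3 ^ m * 3 ^ (M - m) := Nat.mul_le_mul_right _ hj3
      _ = 3 ^ M := by rw [← pow_add, Nat.add_sub_cancel' hM]
  · simp [Order.succ_eq_add_one]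

/-- the sets `B` such that `B × I` is measurable -/
@[instance_reducible] def slice (m0 : MeasurableSpace (Ω × ℝ)) (I : Set ℝ) (hI : MeasurableSet[m0] (univ ×ˢ I)) :
    MeasurableSpace Ω where
  MeasurableSet' B := MeasurableSet[m0] (B ×ˢ I)
  measurableSet_empty := by
    rw [Set.empty_prod]
    exact @MeasurableSet.empty _ m0
  measurableSet_compl B hB := by
    have h1 : Bᶜ ×ˢ I = (univ ×ˢ I) \ (B ×ˢ I) := by
      ext ⟨a, b⟩
      simp only [Set.mem_prod, Set.mem_compl_iff, Set.mem_sdiff, Set.mem_univ, true_and]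
      tauto
    rw [h1]
    exact @MeasurableSet.diff _ m0 _ _ hI hB
  measurableSet_iUnion f hf := by
    rw [Set.iUnion_prod_const]
    exact @MeasurableSet.iUnion _ _ m0 _ _ hf

theorem pred_mem (hX : ∀ ω, Continuous fun q : ℝ≥0 => X F W V q ω) (m j j' : ℕ) (r : ℝ≥0)
    (h : (r : ℝ) ≤ (j : ℝ) / 3 ^ m) (hj' : (j' : ℝ) / 3 ^ m ≤ 1) (B : Set Ω)
    (hB : MeasurableSet[FX F W V r] B) :
    MeasurableSet[Pred F W V] (B ×ˢ Ioc ((j : ℝ) / 3 ^ m) ((j' : ℝ) / 3 ^ m)) := by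
  have hI : MeasurableSet[Pred F W V] (univ ×ˢ Ioc ((j : ℝ) / 3 ^ m) ((j' : ℝ) / 3 ^ m)) :=
    block m j j' m le_rfl hj' univ (@MeasurableSet.univ _ _)
  have h1 : GG F W V m j ≤ slice (Pred F W V) (Ioc ((j : ℝ) / 3 ^ m) ((j' : ℝ) / 3 ^ m)) hI :=
    iSup₂_le fun M hM A hA => block m j j' M hM hj' A hA
  exact h1 B (FX_le hX m j r h B hB)

end

theorem t_COMP : S_COMP := by
  intro Ω _ P W V F θ hS hF hθ r t B hrt ht1 hB
  have := hS.prob
  have hXc : ∀ ω, Continuous fun q : ℝ≥0 => X F W V q ω := fun ω =>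
    (hS.cont ω).add ((hF.cont (V ω)).comp NNReal.continuous_coe)
  have hXm : ∀ q, Measurable (X F W V q) := fun q =>
    (hS.measW q).add ((hF.meas q).comp hS.measV)
  have hle : FX F W V r ≤ _ := iSup₂_le fun q _ => (hXm q).comap_le
  have hBm : MeasurableSet B := hle B hB
  rcases hrt.eq_or_lt with rfl | hlt
  · simp
  have hlt' : (r : ℝ) < t := by exact_mod_cast hlt
  have ht1' : (t : ℝ) ≤ 1 := by exact_mod_cast ht1
  have hr0 : (0 : ℝ) ≤ r := r.2
  have ht0 : (0 : ℝ) ≤ t := t.2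
  set i : ℕ → ℕ := fun n => ⌊(r : ℝ) * 3 ^ n⌋₊ + 1 with hi
  set k : ℕ → ℕ := fun n => ⌊(t : ℝ) * 3 ^ n⌋₊ with hk
  have hs : Tendsto (fun n => (i n : ℝ) / 3 ^ n) atTop (𝓝 (r : ℝ)) := by
    have h1 : Tendsto (fun n : ℕ => (1 / 3 : ℝ) ^ n) atTop (𝓝 0) :=
      tendsto_pow_atTop_nhds_zero_of_lt_one (by norm_num) (by norm_num)
    have h2 := (tendsto_floor r hr0).add h1
    rw [add_zero] at h2
    refine h2.congr fun n => ?_
    simp only [hi]
    push_cast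
    rw [div_pow, one_pow]
    ring
  have hu : Tendsto (fun n => (k n : ℝ) / 3 ^ n) atTop (𝓝 (t : ℝ)) := tendsto_floor t ht0
  have hsr : ∀ n, (r : ℝ) ≤ (i n : ℝ) / 3 ^ n := by
    intro n
    rw [le_div_iff₀ (by positivity)]
    simp only [hi]
    push_cast
    exact (Nat.lt_floor_add_one _).le
  have hut : ∀ n, (k n : ℝ) / 3 ^ n ≤ t := by
    intro n
    rw [div_le_iff₀ (by positivity)]
    exact Nat.floor_le (by positivity)
  have hev : ∀ᶠ n in atTop, (i n : ℝ) / 3 ^ n ≤ (k n : ℝ) / 3 ^ n :=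
    (hs.eventually_lt hu hlt').mono fun n hn => hn.le
  have hE : ∀ᶠ n in atTop, ∫ ω in B, (F (V ω) ((k n : ℝ) / 3 ^ n) - F (V ω) ((i n : ℝ) / 3 ^ n)) ∂P =
      ∫ ω in B, (∫ s in ((i n : ℝ) / 3 ^ n)..((k n : ℝ) / 3 ^ n), θ ω s) ∂P := by
    filter_upwards [hev] with n hn
    have h1 : (k n : ℝ) / 3 ^ n ≤ 1 := (hut n).trans ht1'
    exact hθ.comp n n (i n) (k n) B hn h1 (pred_mem hXc n (i n) (k n) r (hsr n) h1 B hB) hBm
  have hF0 : ∀ u x, 0 ≤ F u x := by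
    intro u x
    rcases le_total x 0 with h | h
    · rw [hF.left u x h]
    · rw [← hF.left u 0 le_rfl]
      exact hF.mono u h
  have hF1 : ∀ u x, F u x ≤ 1 / 2 := by
    intro u x
    rw [← hF.right u (max x 1) (le_max_right _ _)]
    exact hF.mono u (le_max_left _ _)
  have hL : Tendsto (fun n => ∫ ω in B, (F (V ω) ((k n : ℝ) / 3 ^ n) - F (V ω) ((i n : ℝ) / 3 ^ n)) ∂P)
      atTop (𝓝 (∫ ω in B, (F (V ω) t - F (V ω) r) ∂P)) := by
    refine tendsto_integral_of_dominated_convergence (fun _ => (1 : ℝ)) (fun n => ?_)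
      (integrable_const _) (fun n => ?_) ?_
    · exact (((hF.meas _).comp hS.measV).sub ((hF.meas _).comp hS.measV)).aestronglyMeasurable
    · refine Eventually.of_forall fun ω => ?_
      rw [Real.norm_eq_abs, abs_le]
      constructor <;> linarith [hF0 (V ω) ((k n : ℝ) / 3 ^ n), hF1 (V ω) ((k n : ℝ) / 3 ^ n),
        hF0 (V ω) ((i n : ℝ) / 3 ^ n), hF1 (V ω) ((i n : ℝ) / 3 ^ n)]
    · refine Eventually.of_forall fun ω => ?_
      exact (((hF.cont (V ω)).tendsto _).comp hu).sub (((hF.cont (V ω)).tendsto _).comp hs)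
  have hR : Tendsto (fun n => ∫ ω in B, (∫ s in ((i n : ℝ) / 3 ^ n)..((k n : ℝ) / 3 ^ n), θ ω s) ∂P)
      atTop (𝓝 (∫ ω in B, (∫ s in (r : ℝ)..(t : ℝ), θ ω s) ∂P)) := by
    have hae : ∀ᵐ ω ∂P, IntegrableOn (θ ω) (Ioc (0 : ℝ) 1) := hθ.int.prod_right_ae
    refine tendsto_integral_filter_of_dominated_convergence
      (fun ω => ∫ s in Ioc (0 : ℝ) 1, θ ω s) ?_ ?_ ?_ ?_
    · filter_upwards [hev] with n hn
      have h1 : (k n : ℝ) / 3 ^ n ≤ 1 := (hut n).trans ht1'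
      have h0 : (0 : ℝ) ≤ (i n : ℝ) / 3 ^ n := hr0.trans (hsr n)
      have h2 : (fun ω => ∫ s in ((i n : ℝ) / 3 ^ n)..((k n : ℝ) / 3 ^ n), θ ω s) =
          fun ω => ∫ s in Ioc (0 : ℝ) 1,
            (univ ×ˢ Ioc ((i n : ℝ) / 3 ^ n) ((k n : ℝ) / 3 ^ n)).indicator
              (fun p : Ω × ℝ => θ p.1 p.2) (ω, s) := by
        funext ω
        rw [intervalIntegral.integral_of_le hn]
        have h3 : ∀ s, (univ ×ˢ Ioc ((i n : ℝ) / 3 ^ n) ((k n : ℝ) / 3 ^ n)).indicator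
              (fun p : Ω × ℝ => θ p.1 p.2) (ω, s) =
            (Ioc ((i n : ℝ) / 3 ^ n) ((k n : ℝ) / 3 ^ n)).indicator (θ ω) s := by
          intro s
          by_cases hs' : s ∈ Ioc ((i n : ℝ) / 3 ^ n) ((k n : ℝ) / 3 ^ n)
          · rw [Set.indicator_of_mem hs', Set.indicator_of_mem (Set.mk_mem_prod (mem_univ ω) hs')]
          · rw [Set.indicator_of_notMem hs', Set.indicator_of_notMem fun h => hs' h.2]
        simp only [h3]
        rw [setIntegral_indicator measurableSet_Ioc, Set.inter_eq_right.mpr]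
        exact Ioc_subset_Ioc h0 h1
      rw [h2]
      exact ((hθ.int.indicator (MeasurableSet.univ.prod measurableSet_Ioc)).integral_prod_left).aestronglyMeasurable.restrict
    · filter_upwards [hev] with n hn
      have h1 : (k n : ℝ) / 3 ^ n ≤ 1 := (hut n).trans ht1'
      have h0 : (0 : ℝ) ≤ (i n : ℝ) / 3 ^ n := hr0.trans (hsr n)
      refine (ae_restrict_of_ae hae).mono fun ω hω => ?_
      rw [intervalIntegral.integral_of_le hn, Real.norm_eq_abs,
        abs_of_nonneg (integral_nonneg fun s => hθ.nonneg ω s)]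
      exact setIntegral_mono_set hω (Eventually.of_forall fun s => hθ.nonneg ω s)
        (Ioc_subset_Ioc h0 h1).eventuallyLE
    · exact hθ.int.integral_prod_left.restrict
    · refine (ae_restrict_of_ae hae).mono fun ω hω => ?_
      have hω' : IntegrableOn (θ ω) (uIcc (0 : ℝ) 1) := by
        rw [uIcc_of_le zero_le_one]
        rw [integrableOn_Icc_iff_integrableOn_Ioc]
        exact hω
      have hc := intervalIntegral.continuousOn_primitive_interval hω'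
      have hsub : ∀ a b : ℝ, a ∈ uIcc (0 : ℝ) 1 → b ∈ uIcc (0 : ℝ) 1 →
          ∫ s in a..b, θ ω s = (∫ s in (0 : ℝ)..b, θ ω s) - ∫ s in (0 : ℝ)..a, θ ω s := by
        intro a b ha hb
        rw [intervalIntegral.integral_interval_sub_left]
        · exact (hω'.mono_set (uIcc_subset_uIcc left_mem_uIcc hb)).intervalIntegrable
        · exact (hω'.mono_set (uIcc_subset_uIcc left_mem_uIcc ha)).intervalIntegrable
      have hmr : (r : ℝ) ∈ uIcc (0 : ℝ) 1 := by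
        rw [uIcc_of_le zero_le_one]
        exact ⟨hr0, hlt'.le.trans ht1'⟩
      have hmt : (t : ℝ) ∈ uIcc (0 : ℝ) 1 := by
        rw [uIcc_of_le zero_le_one]
        exact ⟨ht0, ht1'⟩
      have hmk : ∀ n, (k n : ℝ) / 3 ^ n ∈ uIcc (0 : ℝ) 1 := by
        intro n
        rw [uIcc_of_le zero_le_one]
        exact ⟨by positivity, (hut n).trans ht1'⟩
      have hmi : ∀ᶠ n in atTop, (i n : ℝ) / 3 ^ n ∈ uIcc (0 : ℝ) 1 := by
        filter_upwards [hev] with n hn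
        rw [uIcc_of_le zero_le_one]
        exact ⟨by positivity, hn.trans ((hut n).trans ht1')⟩
      rw [hsub _ _ hmr hmt]
      have h1 : Tendsto (fun n => ∫ s in (0 : ℝ)..((k n : ℝ) / 3 ^ n), θ ω s) atTop
          (𝓝 (∫ s in (0 : ℝ)..(t : ℝ), θ ω s)) :=
        (hc t hmt).tendsto.comp (tendsto_nhdsWithin_iff.mpr ⟨hu, Eventually.of_forall hmk⟩)
      have h2 : Tendsto (fun n => ∫ s in (0 : ℝ)..((i n : ℝ) / 3 ^ n), θ ω s) atTop
          (𝓝 (∫ s in (0 : ℝ)..(r : ℝ), θ ω s)) :=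
        (hc r hmr).tendsto.comp (tendsto_nhdsWithin_iff.mpr ⟨hs, hmi⟩)
      refine (h1.sub h2).congr' ?_
      filter_upwards [hmi] with n hn
      rw [hsub _ _ hn (hmk n)]
  exact tendsto_nhds_unique_of_eventuallyEq hL hR hE

end Run7.h993.RG
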